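import Pool.Agent.W64.DM.Stm

/-! DM-CELL: cells of a box. -/

set_option autoImplicit false

namespace Pool.Agent.W271.DM

open Pool.Agent.W64.DM

/-- the weight of the cell at distance `l`. -/
noncomputable def gg (l : ℕ) : ℝ := 1 / max 1 (16 * (l : ℝ) ^ 2)

theorem gg_nonneg (l : ℕ) : 0 ≤ gg l := by unfold gg; positivity

theorem gg_le_one (l : ℕ) : gg l ≤ 1 := by
  unfold gg
  rw [div_le_one (by positivity)]
  exact le_max_left _ _

theorem gg_le (l : ℕ) (hl : 1 ≤ l) : gg l ≤ 1 / (16 * (l : ℝ) ^ 2) := by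
  unfold gg
  have : (0 : ℝ) < l := by exact_mod_cast hl
  exact one_div_le_one_div_of_le (by positivity) (le_max_right _ _)

theorem sum_gg (n : ℕ) : ∑ j ∈ Finset.range (n + 1), gg j ≤ 3 / 2 - (1 / 4) / (n + 1) := by
  induction n with
  | zero =>
    simp only [zero_add, Finset.sum_range_one, Nat.cast_zero]
    have := gg_le_one 0
    norm_num
    linarith
  | succ n ih =>
    rw [Finset.sum_range_succ]
    have h := gg_le (n + 1) (by omega)
    push_cast at h ⊢
    have h2 : 1 / (16 * ((n : ℝ) + 1) ^ 2) ≤ (1 / 4) / (n + 1) - (1 / 4) / (n + 1 + 1) := by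
      have hn : (0 : ℝ) ≤ n := Nat.cast_nonneg n
      rw [div_sub_div _ _ (by positivity) (by positivity), div_le_div_iff₀ (by positivity)
        (by positivity)]
      nlinarith [mul_nonneg hn hn, mul_nonneg hn (mul_nonneg hn hn)]
    linarith

theorem sum_gg' (n : ℕ) : ∑ j ∈ Finset.range n, gg j ≤ 3 / 2 := by
  rcases n with _ | n
  · rw [Finset.range_zero, Finset.sum_empty]; norm_num
  · refine (sum_gg n).trans ?_
    have : (0 : ℝ) ≤ (1 / 4) / ((n : ℝ) + 1) := by positivity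
    linarith

/-- the weight of the cell `j`. -/
noncomputable def hc (Q j : ℕ) : ℝ := gg (min j (Q - 1 - j))

theorem hc_nonneg (Q j : ℕ) : 0 ≤ hc Q j := gg_nonneg _

theorem sum_hc (Q : ℕ) : ∑ j ∈ Finset.range Q, hc Q j ≤ 3 := by
  have h1 : ∑ j ∈ Finset.range Q, hc Q j
      ≤ ∑ j ∈ Finset.range Q, (gg j + gg (Q - 1 - j)) := by
    refine Finset.sum_le_sum fun j _ => ?_
    unfold hc
    rcases min_choice j (Q - 1 - j) with h | h
    · rw [h]; linarith [gg_nonneg (Q - 1 - j)]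
    · rw [h]; linarith [gg_nonneg j]
  refine h1.trans ?_
  rw [Finset.sum_add_distrib, Finset.sum_range_reflect]
  linarith [sum_gg' Q]

/-- the cell. -/
noncomputable def cell (Q : ℕ) (x : ℝ) : ℕ := ⌊(Q : ℝ) * Int.fract x⌋₊

theorem cell_lt (Q : ℕ) (hQ : 1 ≤ Q) (x : ℝ) : cell Q x < Q := by
  unfold cell
  have hQ' : (0 : ℝ) < Q := by exact_mod_cast hQ
  rw [Nat.floor_lt (mul_nonneg hQ'.le (Int.fract_nonneg x))]
  have := Int.fract_lt_one x
  nlinarith

theorem hh_le (Q : ℕ) (hQ : 1 ≤ Q) (x : ℝ) : hh Q (nn x) ≤ hc Q (cell Q x) := by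
  have hQ' : (0 : ℝ) < Q := by exact_mod_cast hQ
  have hc1 : (cell Q x : ℝ) ≤ Q * Int.fract x :=
    Nat.floor_le (mul_nonneg hQ'.le (Int.fract_nonneg x))
  have hc2 : (Q : ℝ) * Int.fract x < cell Q x + 1 := Nat.lt_floor_add_one _
  have hlt := cell_lt Q hQ x
  have hn : ((min (cell Q x) (Q - 1 - cell Q x) : ℕ) : ℝ) ≤ Q * nn x := by
    unfold nn
    rw [abs_sub_round_eq_min]
    rw [mul_min_of_nonneg _ _ hQ'.le, Nat.cast_min]
    refine min_le_min hc1 ?_
    have : ((Q - 1 - cell Q x : ℕ) : ℝ) = Q - 1 - cell Q x := by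
      rw [Nat.cast_sub (by omega), Nat.cast_sub hQ, Nat.cast_one]
    rw [this]
    nlinarith
  unfold hh hc gg
  refine one_div_le_one_div_of_le (by positivity) (max_le_max le_rfl ?_)
  have : ((min (cell Q x) (Q - 1 - cell Q x) : ℕ) : ℝ) ^ 2 ≤ (Q * nn x) ^ 2 := by
    gcongr
  nlinarith

theorem nn_sub_lt (Q : ℕ) (hQ : 1 ≤ Q) (x y : ℝ) (h : cell Q x = cell Q y) :
    nn (x - y) < 1 / Q := by
  have hQ' : (0 : ℝ) < Q := by exact_mod_cast hQ
  have hx1 : (cell Q x : ℝ) ≤ Q * Int.fract x :=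
    Nat.floor_le (mul_nonneg hQ'.le (Int.fract_nonneg x))
  have hx2 : (Q : ℝ) * Int.fract x < cell Q x + 1 := Nat.lt_floor_add_one _
  have hy1 : (cell Q y : ℝ) ≤ Q * Int.fract y :=
    Nat.floor_le (mul_nonneg hQ'.le (Int.fract_nonneg y))
  have hy2 : (Q : ℝ) * Int.fract y < cell Q y + 1 := Nat.lt_floor_add_one _
  rw [h] at hx1 hx2
  have h1 : nn (x - y) ≤ |(x - y) - ((⌊x⌋ - ⌊y⌋ : ℤ) : ℝ)| := round_le _ _
  refine h1.trans_lt ?_
  have h2 : (x - y) - ((⌊x⌋ - ⌊y⌋ : ℤ) : ℝ) = Int.fract x - Int.fract y := by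
    unfold Int.fract
    push_cast
    ring
  rw [h2, lt_div_iff₀ hQ']
  have h3 : |Int.fract x - Int.fract y| * Q = |Q * Int.fract x - Q * Int.fract y| := by
    rw [← mul_sub, abs_mul, abs_of_pos hQ', mul_comm]
  rw [h3, abs_lt]
  constructor <;> linarith

theorem main : S_CELL := by
  classical
  intro ι _ Q θ S hQ hno
  have hinj : Set.InjOn (fun (t : ℤ) (i : ι) => cell (Q i) (t * θ i))
      (Finset.Ioo (-(S : ℤ)) S : Finset ℤ) := by
    -- a wlog argument
    have key : ∀ t t' : ℤ, -(S : ℤ) < t → t < t' → t' < S →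
        (fun i : ι => cell (Q i) (t * θ i)) ≠ (fun i : ι => cell (Q i) (t' * θ i)) := by
      intro t t' h1 h2 h3 heq
      obtain ⟨i, hi⟩ := hno (t' - t).toNat (by omega) (by omega)
      have hcast : (((t' - t).toNat : ℕ) : ℝ) = (t' : ℝ) - t := by
        have : (((t' - t).toNat : ℕ) : ℤ) = t' - t := Int.toNat_of_nonneg (by omega)
        exact_mod_cast this
      rw [hcast, sub_mul] at hi
      have := nn_sub_lt (Q i) (hQ i) (t' * θ i) (t * θ i) (congrFun heq i).symm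
      linarith
    intro t ht t' ht' heq
    simp only [Finset.coe_Ioo, Set.mem_Ioo] at ht ht'
    rcases lt_trichotomy t t' with h | h | h
    · exact absurd heq (key t t' ht.1 h ht'.2)
    · exact h
    · exact absurd heq.symm (key t' t ht'.1 h ht.2)
  calc ∑ t ∈ Finset.Ioo (-(S : ℤ)) S, ∏ i, hh (Q i) (nn (t * θ i))
      ≤ ∑ t ∈ Finset.Ioo (-(S : ℤ)) S, ∏ i, hc (Q i) (cell (Q i) (t * θ i)) := by
        refine Finset.sum_le_sum fun t _ => Finset.prod_le_prod (fun i _ => ?_)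
          (fun i _ => hh_le (Q i) (hQ i) _)
        unfold hh; positivity
    _ = ∑ v ∈ (Finset.Ioo (-(S : ℤ)) S).image (fun (t : ℤ) (i : ι) => cell (Q i) (t * θ i)),
          ∏ i, hc (Q i) (v i) := by
        rw [Finset.sum_image hinj]
    _ ≤ ∑ v ∈ Fintype.piFinset (fun i => Finset.range (Q i)), ∏ i, hc (Q i) (v i) := by
        refine Finset.sum_le_sum_of_subset_of_nonneg ?_ fun v _ _ =>
          Finset.prod_nonneg fun i _ => hc_nonneg _ _
        intro v hv
        rw [Finset.mem_image] at hv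
        obtain ⟨t, _, rfl⟩ := hv
        rw [Fintype.mem_piFinset]
        intro i
        rw [Finset.mem_range]
        exact cell_lt _ (hQ i) _
    _ = ∏ i, ∑ j ∈ Finset.range (Q i), hc (Q i) j := by
        rw [Finset.prod_univ_sum]
    _ ≤ ∏ _i : ι, (3 : ℝ) :=
        Finset.prod_le_prod (fun i _ => Finset.sum_nonneg fun j _ => hc_nonneg _ _)
          (fun i _ => sum_hc (Q i))
    _ = 3 ^ Fintype.card ι := by
        rw [Finset.prod_const, Finset.card_univ]

end Pool.Agent.W271.DM
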